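import Pool.Agent.helper35.LV.Spec

set_option autoImplicit false

namespace Pool.Agent.LV

open Matrix Pool.Agent.H48SL Pool.Agent.UG

theorem L2B_mul {n : ℕ} (x₁ x₂ v ψ β₁ β₂ : Fin n → ℚ) (h1 : ψ ⬝ᵥ x₂ = 0) (h2 : ψ ⬝ᵥ v = 0)
    (h3 : β₁ ⬝ᵥ v = 0) :
    (1 + vecMulVec x₁ ψ + vecMulVec v β₁ : MQ n) * (1 + vecMulVec x₂ ψ + vecMulVec v β₂) =
      1 + vecMulVec (x₁ + x₂) ψ + vecMulVec v (β₁ + β₂ + (β₁ ⬝ᵥ x₂) • ψ) := by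
  have e1 : vecMulVec x₁ ψ * vecMulVec x₂ ψ = 0 := by
    rw [vecMulVec_mul_vecMulVec, h1]; ext i j; simp [vecMulVec_apply]
  have e2 : vecMulVec x₁ ψ * vecMulVec v β₂ = 0 := by
    rw [vecMulVec_mul_vecMulVec, h2]; ext i j; simp [vecMulVec_apply]
  have e3 : vecMulVec v β₁ * vecMulVec v β₂ = 0 := by
    rw [vecMulVec_mul_vecMulVec, h3]; ext i j; simp [vecMulVec_apply]
  have e4 : vecMulVec v β₁ * vecMulVec x₂ ψ = vecMulVec v ((β₁ ⬝ᵥ x₂) • ψ) := by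
    rw [vecMulVec_mul_vecMulVec]
  rw [mul_add, mul_add, mul_one, add_mul, add_mul, one_mul, add_mul, add_mul, one_mul, e1, e2, e3, e4]
  refine Matrix.ext fun i j => ?_
  simp only [Matrix.add_apply, vecMulVec_apply, Pi.add_apply, Pi.smul_apply, smul_eq_mul, Matrix.zero_apply]
  ring

theorem L2B_fix {n : ℕ} (x v ψ β : Fin n → ℚ) (h2 : ψ ⬝ᵥ v = 0) (h3 : β ⬝ᵥ v = 0) :
    (1 + vecMulVec x ψ + vecMulVec v β : MQ n) *ᵥ v = v := by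
  rw [add_mulVec, add_mulVec, one_mulVec, vecMulVec_mulVec, vecMulVec_mulVec, h2, h3]
  simp

theorem L2B_castV {n : ℕ} (ψ v : Fin n → ℤ) (h : ψ ⬝ᵥ v = 0) : castV ψ ⬝ᵥ castV v = 0 := by
  have h1 : castV ψ ⬝ᵥ castV v = ((ψ ⬝ᵥ v : ℤ) : ℚ) := by
    simp [castV, dotProduct]
  rw [h1, h, Int.cast_zero]

theorem L2B (hEQK : EQK_stmt) (hL2A : L2A_stmt) : L2B_stmt := by
  intro n hn H v hv hP hK h₁ hh₁ h₂ hh₂ x₁ x₂ ψ β₁ β₂ hψ hψv hψ1 hψ2 hβ1 hβ2 q1 q2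
  have hψv' := L2B_castV ψ v hψv
  have m12 : qg (h₁ * h₂) = 1 + vecMulVec (x₁ + x₂) (castV ψ) +
      vecMulVec (castV v) (β₁ + β₂ + (β₁ ⬝ᵥ x₂) • castV ψ) := by
    rw [qg_mul, q1, q2, L2B_mul x₁ x₂ (castV v) (castV ψ) β₁ β₂ hψ2 hψv' hβ1]
  have m21 : qg (h₂ * h₁) = 1 + vecMulVec (x₂ + x₁) (castV ψ) +
      vecMulVec (castV v) (β₂ + β₁ + (β₂ ⬝ᵥ x₁) • castV ψ) := by
    rw [qg_mul, q1, q2, L2B_mul x₂ x₁ (castV v) (castV ψ) β₂ β₁ hψ1 hψv' hβ2]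
  have hψ' : castV ψ ≠ 0 := by
    intro h0
    apply hψ
    ext i
    have := congrFun h0 i
    simp only [castV, Pi.zero_apply, Int.cast_eq_zero] at this
    exact this
  have e1 : (β₁ ⬝ᵥ x₂ - β₂ ⬝ᵥ x₁) • castV ψ = 0 := by
    refine hEQK n H v hv hK (h₁ * h₂) (H.mul_mem hh₁ hh₂) (h₂ * h₁) (H.mul_mem hh₂ hh₁) _ ?_ ?_ ?_
    · rw [smul_dotProduct, hψv', smul_zero]
    · rw [m21]
      apply L2B_fix _ _ _ _ hψv'
      rw [add_dotProduct, add_dotProduct, smul_dotProduct, hψv', hβ1, hβ2, smul_zero, add_zero, add_zero]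
    · rw [m12, m21]
      refine Matrix.ext fun i j => ?_
      simp only [Matrix.add_apply, vecMulVec_apply, Pi.add_apply, Pi.smul_apply, smul_eq_mul]
      ring
  have e2 : β₁ ⬝ᵥ x₂ = β₂ ⬝ᵥ x₁ := by
    rcases smul_eq_zero.mp e1 with h | h
    · exact sub_eq_zero.mp h
    · exact absurd h hψ'
  have a1 := hL2A n hn H v hv hP hK h₁ hh₁ x₁ ψ β₁ hψ hψv hψ1 hβ1 q1
  have a2 := hL2A n hn H v hv hP hK h₂ hh₂ x₂ ψ β₂ hψ hψv hψ2 hβ2 q2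
  have a3 := hL2A n hn H v hv hP hK (h₁ * h₂) (H.mul_mem hh₁ hh₂) (x₁ + x₂) ψ
    (β₁ + β₂ + (β₁ ⬝ᵥ x₂) • castV ψ) hψ hψv
    (by rw [dotProduct_add, hψ1, hψ2, add_zero])
    (by rw [add_dotProduct, add_dotProduct, smul_dotProduct, hψv', hβ1, hβ2, smul_zero, add_zero, add_zero])
    m12
  rw [add_dotProduct, add_dotProduct, smul_dotProduct, dotProduct_add, dotProduct_add, dotProduct_add,
    hψ1, hψ2, a1, a2] at a3
  simp only [smul_eq_mul, mul_zero, add_zero, zero_add] at a3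
  linarith

end Pool.Agent.LV
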